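import Mathlib

/-! Abstract analysis for the generic synchrony theorem: null projections of Lipschitz graphs,
a Remez type bound, the short time window estimate and invariance of subspaces. -/

set_option autoImplicit false

open Filter Topology Set MeasureTheory Module
open scoped ContDiff NNReal

namespace Pool.Agent.Lib.MP_e1010f_gen

section graph
variable {Y Z : Type} [NormedAddCommGroup Y] [NormedSpace ℝ Y] [FiniteDimensional ℝ Y]
  [NormedAddCommGroup Z] [NormedSpace ℝ Z] [FiniteDimensional ℝ Z] {m : ℕ}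

theorem dim_piece (hYZ : finrank ℝ Y < finrank ℝ Z) {B : Set (Y × (Fin m → ℝ))}
    (T : Z →ₗ[ℝ] (Fin m → ℝ)) (K : ℝ)
    (h : ∀ b ∈ B, ∀ b' ∈ B, ∀ α, ‖α‖ ≤ K * (‖b.1 - b'.1‖ + ‖b.2 - b'.2 - T α‖))
    (h0 : ∀ α, T α = 0 → α = 0) :
    1 ≤ m ∧ dimH B ≤ (m - 1 : ℕ) := by
  obtain ⟨S, hS⟩ := T.exists_leftInverse_of_injective (LinearMap.ker_eq_bot'.2 h0)
  have hST : ∀ α, S (T α) = α := fun α => LinearMap.congr_fun hS α
  have hr := S.finrank_range_add_finrank_ker
  rw [LinearMap.range_eq_top.2 fun α => ⟨_, hST α⟩, finrank_top, finrank_fin_fun] at hr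
  refine ⟨by omega, ?_⟩
  let F : B → Y × LinearMap.ker S := fun b => (b.1.1, ⟨b.1.2 - T (S b.1.2), by simp [hST]⟩)
  obtain ⟨L, hL0, hL⟩ : ∃ L, 0 < L ∧ ∀ α, ‖T α‖ ≤ L * ‖α‖ := T.toContinuousLinearMap.bound
  have hF : AntilipschitzWith ⟨1 + L * (|K| * 2), by positivity⟩ F := by
    refine AntilipschitzWith.of_le_mul_dist fun b b' => ?_
    have e : b.1.2 - b'.1.2 - T (S (b.1.2 - b'.1.2)) =
        b.1.2 - T (S b.1.2) - (b'.1.2 - T (S b'.1.2)) := by simp only [map_sub]; abel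
    have h1 : ‖b.1.1 - b'.1.1‖ ≤ dist (F b) (F b') := by
      rw [← dist_eq_norm]; exact le_max_left _ _
    have h2 : ‖b.1.2 - b'.1.2 - T (S (b.1.2 - b'.1.2))‖ ≤ dist (F b) (F b') := by
      rw [e, ← dist_eq_norm]; exact le_max_right _ _
    have h3 := (h _ b.2 _ b'.2 (S (b.1.2 - b'.1.2))).trans
      (mul_le_mul (le_abs_self K) (add_le_add h1 h2) (by positivity) (abs_nonneg K))
    have h4 := (hL _).trans (mul_le_mul_of_nonneg_left h3 hL0.le)
    have h5 := norm_le_norm_sub_add (b.1.2 - b'.1.2) (T (S (b.1.2 - b'.1.2)))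
    have h6 : 0 ≤ L * (|K| * 2) * dist (F b) (F b') := by positivity
    change max (dist _ _) (dist _ _) ≤ (1 + L * (|K| * 2)) * _
    rw [dist_eq_norm, dist_eq_norm]
    exact max_le (by linarith) (by linarith)
  calc dimH B = dimH (Subtype.val '' (univ : Set B)) := by simp
    _ = dimH (univ : Set B) := isometry_subtype_coe.dimH_image _
    _ ≤ dimH (univ : Set (Y × LinearMap.ker S)) :=
      (hF.le_dimH_image _).trans (dimH_mono (subset_univ _))
    _ ≤ (m - 1 : ℕ) := by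
      rw [Real.dimH_univ_eq_finrank, finrank_prod]
      exact_mod_cast by omega

theorem null_graph (hYZ : finrank ℝ Y < finrank ℝ Z) (p : Y → (Fin m → ℝ) → Prop)
    (h : ∀ y a, p y a → ∃ (T : Z →ₗ[ℝ] (Fin m → ℝ)) (K : ℝ), ∃ U ∈ 𝓝 (y, a), ∀ b ∈ U, ∀ b' ∈ U,
      p b.1 b.2 → p b'.1 b'.2 → ∀ α, ‖α‖ ≤ K * (‖b.1 - b'.1‖ + ‖b.2 - b'.2 - T α‖)) :
    ∀ᵐ a, ∀ y, ¬ p y a := by
  let B : Set (Y × (Fin m → ℝ)) := {b | p b.1 b.2}
  have key : ∀ b ∈ B, ∃ t ∈ 𝓝[B] b, 1 ≤ m ∧ dimH t ≤ (m - 1 : ℕ) := by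
    intro b hb
    obtain ⟨T, K, U, hU, hK⟩ := h _ _ hb
    have hbU := mem_of_mem_nhds hU
    exact ⟨B ∩ U, inter_mem_nhdsWithin B hU, dim_piece hYZ T K
      (fun b1 h1 b2 h2 => hK b1 h1.2 b2 h2.2 h1.1 h2.1) fun α hα => by
        simpa [hα] using hK _ hbU _ hbU hb hb α⟩
  have h2 : volume (Prod.snd '' B) = 0 := by
    rcases B.eq_empty_or_nonempty with h0 | ⟨b, hb⟩
    · simp [h0]
    obtain ⟨-, -, hm, -⟩ := key b hb
    have h1 : dimH B ≤ (m - 1 : ℕ) := by
      by_contra hc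
      obtain ⟨b, hb, h'⟩ := exists_mem_nhdsWithin_lt_dimH_of_lt_dimH (not_le.1 hc)
      obtain ⟨t, ht, -, h3⟩ := key b hb
      exact (h' t ht).not_ge h3
    refine measure_zero_of_dimH_lt (d := m) ?_
      ((LipschitzWith.prod_snd.dimH_image_le B).trans_lt (h1.trans_lt ?_))
    · rw [← hausdorffMeasure_pi_real, Fintype.card_fin]
      exact Measure.AbsolutelyContinuous.rfl
    · exact_mod_cast by omega
  refine measure_mono_null (fun a ha => ?_) h2
  simp only [mem_compl_iff, mem_ofPred_eq, not_forall, not_not] at ha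
  obtain ⟨y, hy⟩ := ha
  exact ⟨(y, a), hy, rfl⟩

end graph

open Polynomial in
theorem remez (N : ℕ) : ∃ K : ℝ, 0 < K ∧ ∀ (φ : ℝ[X]) (s δ η : ℝ), φ.natDegree ≤ N → 0 < δ → δ ≤ 1 →
    -1 ≤ s → s + δ ≤ 1 → (∀ y ∈ Icc s (s + δ), |φ.eval y| ≤ η) →
    ∀ j, |φ.coeff j| * δ ^ N ≤ K * η := by
  induction N with
  | zero =>
    refine ⟨1, one_pos, fun φ s δ η hφ h0 _ _ _ h j => ?_⟩
    have h1 := h s ⟨le_rfl, by linarith⟩
    rw [eq_C_of_natDegree_le_zero hφ] at h1 ⊢
    rw [eval_C] at h1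
    rw [coeff_C]
    split_ifs
    · simpa using h1
    · simpa using (abs_nonneg _).trans h1
  | succ N ih =>
    obtain ⟨K, hK, ih⟩ := ih
    refine ⟨1 + 8 * 2 ^ N * K, by positivity, fun φ s δ η hφ h0 h1 h2 h3 h j => ?_⟩
    have hs := h s ⟨le_rfl, by linarith⟩
    have hη : 0 ≤ η := (abs_nonneg _).trans hs
    set ψ := φ /ₘ (X - C s) with hψ
    have e : φ = (X - C s) * ψ + C (φ.eval s) := by
      rw [hψ, X_sub_C_mul_divByMonic_eq_sub_modByMonic, modByMonic_X_sub_C_eq_C_eval]; ring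
    have hd : ψ.natDegree ≤ N := by
      rw [hψ, natDegree_divByMonic _ (monic_X_sub_C s), natDegree_X_sub_C]; omega
    have hb : ∀ i, |ψ.coeff i| * δ ^ (N + 1) ≤ 4 * 2 ^ N * K * η := fun i => by
      have := ih ψ (s + δ / 2) (δ / 2) (4 * η / δ) hd (by linarith) (by linarith) (by linarith)
        (by linarith) (fun y hy => by
          have h4 := h y ⟨by linarith [hy.1], by linarith [hy.2]⟩
          have h5 : φ.eval y = (y - s) * ψ.eval y + φ.eval s := by
            conv_lhs => rw [e]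
            simp
          have h6 : (y - s) * |ψ.eval y| ≤ 2 * η := by
            rw [← abs_of_nonneg (show 0 ≤ y - s by linarith [hy.1]), ← abs_mul,
              show (y - s) * ψ.eval y = φ.eval y - φ.eval s by linarith]
            exact (abs_sub _ _).trans (by linarith)
          rw [le_div_iff₀ h0]
          nlinarith [abs_nonneg (ψ.eval y), hy.1]) i
      rw [div_pow, ← mul_div_assoc, div_le_iff₀ (by positivity), ← mul_div_assoc,
        div_mul_eq_mul_div, le_div_iff₀ h0] at this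
      rw [pow_succ]; linarith
    have hδ : δ ^ (N + 1) ≤ 1 := pow_le_one₀ h0.le h1
    have hδ0 : 0 < δ ^ (N + 1) := by positivity
    have hs1 : |s| ≤ 1 := abs_le.2 ⟨h2, by linarith⟩
    have hm : ∀ i, |s * ψ.coeff i| ≤ |ψ.coeff i| := fun i => by
      rw [abs_mul]; exact mul_le_of_le_one_left (abs_nonneg _) hs1
    have h8 : 0 ≤ 2 ^ N * K * η := by positivity
    rw [e, coeff_add]
    cases j with
    | zero =>
      have h7 : |((X - C s) * ψ).coeff 0 + (C (φ.eval s)).coeff 0| ≤ |ψ.coeff 0| + η := by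
        refine (abs_add_le _ _).trans (add_le_add ?_ (by simpa using hs))
        simpa [abs_mul] using hm 0
      nlinarith [hb 0, mul_le_mul_of_nonneg_right h7 hδ0.le, mul_le_mul_of_nonneg_left hδ hη]
    | succ j =>
      have h7 : |((X - C s) * ψ).coeff (j + 1) + (C (φ.eval s)).coeff (j + 1)| ≤
          |ψ.coeff j| + |ψ.coeff (j + 1)| := by
        rw [coeff_X_sub_C_mul, coeff_C_succ, add_zero]
        exact (abs_sub _ _).trans (add_le_add le_rfl (hm _))
      nlinarith [hb j, hb (j + 1), mul_le_mul_of_nonneg_right h7 hδ0.le]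

variable {E : Type} [NormedAddCommGroup E] [NormedSpace ℝ E]

theorem absorb (N : ℕ) {c : ℝ} (hL : 1 ≤ c) : ∀ᶠ τ in 𝓝[>] (0 : ℝ), ∃ K : ℝ,
    ∀ (z z' : ℝ → E) (s s' : ℝ → ℝ) (α : Fin (N + 1) → ℝ) (W : ℝ), 0 ≤ W → |s 0| ≤ 1 / 2 →
    (∀ t ∈ Icc 0 τ, HasDerivAt z (z' t) t ∧ HasDerivAt s (s' t) t ∧ 1 / 2 ≤ s' t ∧
      ‖z' t‖ ≤ c * (‖z t‖ + (W + τ ^ (N + 1) * ‖α‖)) ∧
      |∑ j, α j * s t ^ (j : ℕ)| ≤ c * (‖z t‖ + (W + τ ^ (N + 1) * ‖α‖))) →
    ‖α‖ ≤ K * (‖z 0‖ + W) := by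
  obtain ⟨K, hK, hR⟩ := remez N
  have hc : 0 ≤ c := by linarith
  set c' := 2 ^ N * K * (c * (Real.exp c * (1 + c) + 1)) with hc'
  have hc0 : 0 ≤ c' := by positivity
  have h1 : ∀ᶠ τ in 𝓝 (0 : ℝ), c' * τ < 1 / 2 :=
    ((continuous_const.mul continuous_id).tendsto' 0 0 (by simp)).eventually_lt_const (by norm_num)
  filter_upwards [h1.filter_mono nhdsWithin_le_nhds, Ioc_mem_nhdsGT one_pos] with τ h1 ⟨h0, hτ⟩
  refine ⟨2 * c' / τ ^ N, fun z z' s s' α W hW hs h => ?_⟩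
  set ε := W + τ ^ (N + 1) * ‖α‖ with hε
  have hε0 : 0 ≤ ε := by positivity
  have hz : ∀ t ∈ Icc 0 τ, ‖z t‖ ≤ Real.exp c * (‖z 0‖ + c * ε) := fun t ht => by
    refine (norm_le_gronwallBound_of_norm_deriv_right_le (K := c) (ε := c * ε)
      (fun t ht => (h t ht).1.continuousAt.continuousWithinAt)
      (fun t ht => (h t (Ico_subset_Icc_self ht)).1.hasDerivWithinAt) le_rfl
      (fun t ht => (h t (Ico_subset_Icc_self ht)).2.2.2.1.trans_eq (mul_add _ _ _)) t ht).trans ?_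
    rw [gronwallBound_of_K_ne_0 (by linarith), mul_add (Real.exp c), mul_comm _ ‖z 0‖,
      mul_comm _ (c * ε)]
    have h2 : Real.exp (c * (t - 0)) ≤ Real.exp c :=
      Real.exp_le_exp.2 (by nlinarith [ht.1, ht.2])
    have h3 := Real.add_one_le_exp (c * (t - 0))
    exact add_le_add (mul_le_mul_of_nonneg_left h2 (norm_nonneg _))
      (mul_le_mul (div_le_self (by positivity) hL) (by linarith) (by nlinarith [ht.1])
        (by positivity))
  have hsc : ContinuousOn s (Icc 0 τ) := fun t ht => (h t ht).2.1.continuousAt.continuousWithinAt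
  have hm := (convex_Icc 0 τ).mul_sub_le_image_sub_of_le_deriv hsc
    (fun t ht => (h t (interior_subset ht)).2.1.differentiableAt.differentiableWithinAt)
    (fun t ht => by rw [(h t (interior_subset ht)).2.1.deriv]; exact (h t (interior_subset ht)).2.2.1)
    0 ⟨le_rfl, h0.le⟩ τ ⟨h0.le, le_rfl⟩ h0.le
  have hs' := abs_le.1 hs
  have key := hR (Polynomial.ofFn (N + 1) α) (s 0) (τ / 2)
    (c * (Real.exp c * (1 + c) + 1) * (‖z 0‖ + ε))
    (Nat.lt_succ_iff.1 (Polynomial.ofFn_natDegree_lt (by omega) α)) (by linarith) (by linarith)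
    (by linarith) (by linarith) fun y hy => by
      obtain ⟨t, ht, rfl⟩ := intermediate_value_Icc h0.le hsc ⟨hy.1, by linarith [hy.2]⟩
      rw [Polynomial.ofFn_eq_sum_monomial, Polynomial.eval_finsetSum]
      simp only [Polynomial.eval_monomial]
      refine (h t ht).2.2.2.2.trans ?_
      rw [mul_assoc]
      refine mul_le_mul_of_nonneg_left ?_ hc
      have h4 := hz t ht
      have h5 := Real.exp_pos c
      have h6 := norm_nonneg (z 0)
      nlinarith [mul_nonneg h5.le hε0, mul_nonneg (mul_nonneg h5.le hc) h6]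
  have hτN : 0 < τ ^ N := by positivity
  have h7 : ‖α‖ * τ ^ N ≤ c' * (‖z 0‖ + ε) := by
    rw [← le_div_iff₀ hτN, pi_norm_le_iff_of_nonneg (by positivity)]
    intro j
    have := key j
    rw [Polynomial.ofFn_coeff_eq_val_of_lt α j.2, div_pow, ← mul_div_assoc,
      div_le_iff₀ (by positivity)] at this
    rw [le_div_iff₀ hτN, Real.norm_eq_abs, hc']
    simp only [Fin.eta] at this
    linarith
  rw [div_mul_eq_mul_div, le_div_iff₀ hτN]
  rw [hε, pow_succ] at h7
  nlinarith [mul_nonneg (norm_nonneg α) hτN.le]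

theorem invariant [FiniteDimensional ℝ E] {g : E → E} (hg : LocallyLipschitz g) {x : ℝ → E}
    {s t : ℝ} (hx : ∀ u ∈ Ioo s t, HasDerivAt x (g (x u)) u) (D : Submodule ℝ E)
    (hD : ∀ y ∈ D, g y ∈ D) {u₀ : ℝ} (h₀ : u₀ ∈ Ioo s t) (h₁ : x u₀ ∈ D) :
    ∀ u ∈ Ioo s t, x u ∈ D := by
  obtain ⟨π, hπ⟩ := Submodule.ClosedComplemented.of_finiteDimensional D
  let R : E →L[ℝ] E := D.subtypeL.comp π
  let Q : E →L[ℝ] E := ContinuousLinearMap.id ℝ E - R
  have hQ : ∀ y, Q y = y - π y := fun y => rfl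
  have hQ0 : ∀ y ∈ D, Q y = 0 := fun y hy => by
    rw [hQ, show π y = ⟨y, hy⟩ from hπ ⟨y, hy⟩, sub_self]
  have hQ1 : ∀ y, Q y = 0 → y ∈ D := fun y hy => by
    rw [hQ, sub_eq_zero] at hy
    rw [hy]; exact (π y).2
  have loc : ∀ u ∈ Ioo s t, x u ∈ D → ∀ᶠ v in 𝓝 u, x v ∈ D := by
    intro u hu hD'
    obtain ⟨K, U, hU, hK⟩ := hg (x u)
    have hc := (hx u hu).continuousAt
    have h1 : ∀ᶠ v in 𝓝 u, R (x v) ∈ U := by
      refine (R.continuous.continuousAt.comp hc).eventually_mem ?_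
      have : R (x u) = x u := (sub_eq_zero.1 (hQ0 _ hD')).symm
      simpa [this] using hU
    have := ODE_solution_unique_of_eventually (v := fun v y => Q (g (R (x v) + y)))
      (s := fun v => {y | R (x v) + y ∈ U}) (K := ‖Q‖₊ * K) (f := fun v => Q (x v))
      (g := fun _ => 0) (t₀ := u) (Eventually.of_forall fun v => by
        refine Q.lipschitz.comp_lipschitzOnWith (LipschitzOnWith.of_dist_le_mul fun a ha b hb => ?_)
        simpa using hK.dist_le_mul _ ha _ hb)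
      (by
        filter_upwards [isOpen_Ioo.mem_nhds hu, hc.eventually_mem hU] with v hv hvU
        have e : R (x v) + Q (x v) = x v := by simp [Q]
        simp only [e]
        exact ⟨Q.hasFDerivAt.comp_hasDerivAt v (hx v hv), hvU⟩)
      (by
        filter_upwards [h1] with v hv
        simp only [add_zero]
        rw [hQ0 (g (R (x v))) (hD _ (π (x v)).2)]
        exact ⟨hasDerivAt_const _ _, hv⟩) (hQ0 _ hD')
    exact this.mono fun v hv => hQ1 _ hv
  intro u hu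
  refine (isPreconnected_Ioo.subset_of_closure_inter_subset
    (u := {v | ∀ᶠ w in 𝓝 v, x w ∈ D}) isOpen_setOfPred_eventually_nhds ⟨u₀, h₀, loc _ h₀ h₁⟩
    (fun v hv => loc v hv.2 ?_) hu).self_of_nhds
  exact D.closed_of_finiteDimensional.mem_of_frequently_of_tendsto
    ((mem_closure_iff_frequently.1 hv.1).mono fun w hw => hw.self_of_nhds)
    (hx v hv.2).continuousAt

end Pool.Agent.Lib.MP_e1010f_gen
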