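import Mathlib

/-! A finite dimensional algebra of smooth, bounded, Lipschitz probe functions. -/

set_option autoImplicit false

open Filter Topology Set Module
open scoped ContDiff

namespace Pool.Agent.Lib.MP_e1010f_gen

variable (W : Type) [NormedAddCommGroup W] [NormedSpace ℝ W]

/-- Smooth, bounded and Lipschitz functions. -/
def Nice : Submodule ℝ (W → ℝ) where
  carrier := {ψ | ContDiff ℝ ∞ ψ ∧ ∃ K : ℝ, ∀ w w', |ψ w| ≤ K ∧ |ψ w - ψ w'| ≤ K * ‖w - w'‖}
  zero_mem' := ⟨contDiff_const, 0, fun w w' => by simp⟩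
  add_mem' := by
    rintro φ ψ ⟨h1, K, h2⟩ ⟨h3, L, h4⟩
    refine ⟨h1.add h3, K + L, fun w w' => ⟨(abs_add_le _ _).trans
      (add_le_add (h2 w w).1 (h4 w w).1), ?_⟩⟩
    rw [Pi.add_apply, Pi.add_apply, add_sub_add_comm, add_mul]
    exact (abs_add_le _ _).trans (add_le_add (h2 w w').2 (h4 w w').2)
  smul_mem' := by
    rintro c ψ ⟨h1, K, h2⟩
    refine ⟨h1.const_smul c, |c| * K, fun w w' => ?_⟩
    rw [Pi.smul_apply, Pi.smul_apply, smul_eq_mul, smul_eq_mul, ← mul_sub, abs_mul, abs_mul,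
      mul_assoc]
    exact ⟨mul_le_mul_of_nonneg_left (h2 w w).1 (abs_nonneg c),
      mul_le_mul_of_nonneg_left (h2 w w').2 (abs_nonneg c)⟩

theorem one_mem_nice : (1 : W → ℝ) ∈ Nice W := ⟨contDiff_const, 1, fun w w' => by simp⟩

variable {W}

theorem mul_mem_nice {φ ψ : W → ℝ} (hφ : φ ∈ Nice W) (hψ : ψ ∈ Nice W) : φ * ψ ∈ Nice W := by
  obtain ⟨h1, K, h2⟩ := hφ
  obtain ⟨h3, L, h4⟩ := hψ
  have hK : 0 ≤ K := (abs_nonneg _).trans (h2 0 0).1
  have hL : 0 ≤ L := (abs_nonneg _).trans (h4 0 0).1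
  refine ⟨h1.mul h3, 2 * (K * L), fun w w' => ⟨?_, ?_⟩⟩
  · rw [Pi.mul_apply, abs_mul]
    have := mul_le_mul (h2 w w).1 (h4 w w).1 (abs_nonneg _) hK
    nlinarith [mul_nonneg hK hL]
  · rw [Pi.mul_apply, Pi.mul_apply,
      show φ w * ψ w - φ w' * ψ w' = φ w * (ψ w - ψ w') + (φ w - φ w') * ψ w' by ring]
    refine (abs_add_le _ _).trans ?_
    rw [abs_mul, abs_mul]
    have h5 := mul_le_mul (h2 w w).1 (h4 w w').2 (abs_nonneg _) hK
    have h6 := mul_le_mul (h2 w w').2 (h4 w' w).1 (abs_nonneg _) (by positivity)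
    linarith

variable (W) [FiniteDimensional ℝ W]

/-- The span of `1` and of the functions `arctan` of a coordinate. -/
noncomputable def Alg : Submodule ℝ (W → ℝ) :=
  Submodule.span ℝ (insert 1 (range fun i w => Real.arctan ((finBasis ℝ W).coord i w)))

theorem alg_fg : (Alg W).FG := Submodule.fg_span ((finite_range _).insert _)

theorem one_mem_alg : (1 : W → ℝ) ∈ Alg W := Submodule.subset_span (mem_insert _ _)

theorem alg_le : Alg W ≤ Nice W := by
  refine Submodule.span_le.2 (insert_subset (one_mem_nice W) ?_)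
  rintro _ ⟨i, rfl⟩
  let l := LinearMap.toContinuousLinearMap ((finBasis ℝ W).coord i)
  have hl : LipschitzWith 1 Real.arctan := lipschitzWith_of_nnnorm_deriv_le
    Real.differentiable_arctan fun x => by
      rw [Real.deriv_arctan, ← NNReal.coe_le_coe, coe_nnnorm, Real.norm_of_nonneg (by positivity)]
      exact div_le_one_of_le₀ (by nlinarith [sq_nonneg x]) (by positivity)
  refine ⟨Real.contDiff_arctan.comp l.contDiff, 2 + ‖l‖, fun w w' => ⟨?_, ?_⟩⟩
  · have h1 := Real.arctan_lt_pi_div_two (l w)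
    have h2 := Real.neg_pi_div_two_lt_arctan (l w)
    have h3 := Real.pi_le_four
    have h4 := norm_nonneg l
    exact abs_le.2 ⟨by change _ ≤ Real.arctan (l w); linarith,
      by change Real.arctan (l w) ≤ _; linarith⟩
  · have h1 := hl.dist_le_mul (l w) (l w')
    rw [NNReal.coe_one, one_mul, Real.dist_eq, dist_eq_norm, ← map_sub] at h1
    exact (h1.trans (l.le_opNorm _)).trans
      (mul_le_mul_of_nonneg_right (by linarith) (norm_nonneg _))

theorem pow_le (D : ℕ) : Alg W ^ D ≤ Nice W := fun _ h =>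
  Submodule.pow_induction_on_left _ (fun r => by
    simpa [Algebra.algebraMap_eq_smul_one] using (Nice W).smul_mem r (one_mem_nice W))
    (fun _ _ => (Nice W).add_mem) (fun _ hm _ => mul_mem_nice (alg_le W hm)) h

variable {W}

theorem pow_mono {a b : ℕ} (h : a ≤ b) {ψ : W → ℝ} (hψ : ψ ∈ Alg W ^ a) : ψ ∈ Alg W ^ b := by
  obtain ⟨c, rfl⟩ := Nat.exists_eq_add_of_le h
  simpa [pow_add] using Submodule.mul_mem_mul hψ (Submodule.pow_mem_pow _ (one_mem_alg W) c)

theorem chi_mem (i : Fin (finrank ℝ W)) (k c : ℝ) :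
    (fun w => k * (Real.arctan ((finBasis ℝ W).coord i w) - c)) ∈ Alg W := by
  have := (Alg W).smul_mem k ((Alg W).sub_mem
    (Submodule.subset_span (mem_insert_of_mem _ (mem_range_self i)))
    ((Alg W).smul_mem c (one_mem_alg W)))
  refine (congrArg (· ∈ Alg W) (funext fun w => ?_)).mp this
  simp

theorem exists_sep (u u' : W) : ∃ θ ∈ Alg W, θ u = 1 ∧ (u' ≠ u → θ u' = 0) := by
  by_cases h : u' = u
  · exact ⟨1, one_mem_alg W, rfl, fun h' => absurd h h'⟩
  obtain ⟨i, hi⟩ := not_forall.1 fun h' => h ((finBasis ℝ W).ext_elem h')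
  refine ⟨_, chi_mem i (Real.arctan ((finBasis ℝ W).coord i u) -
    Real.arctan ((finBasis ℝ W).coord i u'))⁻¹ (Real.arctan ((finBasis ℝ W).coord i u')),
    inv_mul_cancel₀ (sub_ne_zero.2 fun h' => hi (Real.arctan_injective h').symm), fun _ => ?_⟩
  simp

theorem exists_mov (u w : W) : ∃ θ ∈ Alg W, θ u = 0 ∧ (w ≠ 0 → fderiv ℝ θ u w = 1) := by
  by_cases h : w = 0
  · exact ⟨0, (Alg W).zero_mem, rfl, fun h' => absurd h h'⟩
  obtain ⟨i, hi⟩ := not_forall.1 fun h' => h ((finBasis ℝ W).forall_coord_eq_zero_iff.1 h')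
  let l := LinearMap.toContinuousLinearMap ((finBasis ℝ W).coord i)
  refine ⟨_, chi_mem i ((1 + l u ^ 2) / l w) (Real.arctan (l u)), ?_, fun _ => ?_⟩
  · exact mul_eq_zero_of_right _ (sub_self _)
  have h1 := (((Real.hasDerivAt_arctan (l u)).comp_hasFDerivAt u l.hasFDerivAt).sub_const
    (Real.arctan (l u))).const_mul ((1 + l u ^ 2) / l w)
  have h2 : l w ≠ 0 := hi
  refine (congrArg (fun T : W →L[ℝ] ℝ => T w) h1.fderiv).trans ?_
  simp only [smul_apply, smul_eq_mul]
  field_simp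

theorem exists_rho {ι : Type} [Fintype ι] (p : ι → W) (u : W) :
    ∃ ρ ∈ Alg W ^ Fintype.card ι, ρ u = 1 ∧ ∀ i, p i ≠ u → ρ (p i) = 0 := by
  classical
  choose θ h1 h2 h3 using fun i => exists_sep u (p i)
  refine ⟨∏ i, θ i, ?_, by simp [h2], fun i hi => ?_⟩
  · rw [← Finset.card_univ]
    induction (Finset.univ : Finset ι) using Finset.induction_on with
    | empty => simp
    | insert i s hi ih =>
      rw [Finset.prod_insert hi, Finset.card_insert_of_notMem hi, pow_succ']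
      exact Submodule.mul_mem_mul (h1 i) ih
  · rw [Finset.prod_apply]
    exact Finset.prod_eq_zero (Finset.mem_univ i) (h3 i hi)

theorem probe_mem {θ ρ : W → ℝ} {K N j : ℕ} (hθ : θ ∈ Alg W) (hρ : ρ ∈ Alg W ^ K) (hj : j ≤ N) :
    θ ^ j * ρ ^ (N + 1) ∈ Alg W ^ (N + K * (N + 1)) := by
  rw [pow_add, pow_mul]
  exact Submodule.mul_mem_mul (pow_mono hj (Submodule.pow_mem_pow _ hθ j))
    (Submodule.pow_mem_pow _ hρ _)

end Pool.Agent.Lib.MP_e1010f_gen
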