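import Pool.Agent.Lib.MP_e1010f_an.Net
import Pool.Agent.Lib.MP_e1010f_gen.GB

/-! The finite dimensional family of admissible probe fields. -/

set_option autoImplicit false

open Filter Topology Set Module
open scoped ContDiff

namespace Pool.Agent.Lib.MP_e1010f_gen

open Pool.Agent.Lib.MP_e1010f_an

variable {C A : Type} [Fintype C] [Fintype A] [DecidableEq C] {G : Network C A}
  {V : Type} [NormedAddCommGroup V] [NormedSpace ℝ V] {P : C → Submodule ℝ V}

open Classical in
/-- The symmetrised function. -/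
noncomputable def sy {e : C} (ψ : V × (G.In e → V) → ℝ) (d : C) (w : V × (G.In d → V)) : ℝ :=
  ∑ β : G.In e ≃ G.In d, if G.IsInputIso e d β then ψ (w.1, fun i => w.2 (β i)) else 0

/-- The symmetrised function at a state. -/
noncomputable def kap {e : C} (ψ : V × (G.In e → V) → ℝ) (x : State P) (d : C) : ℝ :=
  sy ψ d (inp (Equiv.refl _) x)

open Classical in
omit [Fintype C] in
theorem kap_eq {e : C} (ψ : V × (G.In e → V) → ℝ) (x : State P) (d : C) : kap ψ x d =
    ∑ β : G.In e ≃ G.In d, if G.IsInputIso e d β then ψ (inp β x) else 0 := rfl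

omit [Fintype C] in
theorem kap_add {e : C} (φ ψ : V × (G.In e → V) → ℝ) (x : State P) (d : C) :
    kap (φ + ψ) x d = kap φ x d + kap ψ x d := by
  simp only [kap_eq, ← Finset.sum_add_distrib]
  exact Finset.sum_congr rfl fun β _ => by split_ifs <;> simp

omit [Fintype C] in
theorem kap_smul {e : C} (c : ℝ) (ψ : V × (G.In e → V) → ℝ) (x : State P) (d : C) :
    kap (c • ψ) x d = c * kap ψ x d := by
  simp only [kap_eq, Finset.mul_sum]
  exact Finset.sum_congr rfl fun β _ => by split_ifs <;> simp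

open Classical in
/-- A bound for the number of input isomorphisms. -/
noncomputable def nb (G : Network C A) (e : C) : ℕ := Fintype.card ((d : C) × (G.In e ≃ G.In d))

omit [NormedAddCommGroup V] [NormedSpace ℝ V] in
open Classical in
theorem sum_le {e : C} (d : C) {η : ℝ} (hη : 0 ≤ η) (u : (G.In e ≃ G.In d) → ℝ)
    (h : ∀ β, |u β| ≤ η) : |∑ β, u β| ≤ nb G e * η := by
  refine (Finset.abs_sum_le_sum_abs _ _).trans
    ((Finset.sum_le_card_nsmul _ _ η fun β _ => h β).trans ?_)
  rw [nsmul_eq_mul, Finset.card_univ]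
  refine mul_le_mul_of_nonneg_right (Nat.cast_le.2 ?_) hη
  exact Fintype.card_le_of_injective _ (sigma_mk_injective (β := fun d => G.In e ≃ G.In d) (i := d))

theorem kap_split (e : C) (y : State P) : ∃ k : C → ℝ, (∀ d, |k d| ≤ nb G e) ∧ 1 ≤ k e ∧
    (∀ d, ¬ Match G y e d → k d = 0) ∧ ∀ (ψ : V × (G.In e → V) → ℝ) (x : State P) (η : ℝ), 0 ≤ η →
      (∀ c d, (y c : V) = y d → (x c : V) = x d) →
      (∀ d (β : G.In e ≃ G.In d), inp β y ≠ inp (Equiv.refl _) y → |ψ (inp β x)| ≤ η) →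
      ∀ d, |kap ψ x d - k d * ψ (inp (Equiv.refl _) x)| ≤ nb G e * η := by
  classical
  refine ⟨fun d => ∑ β : G.In e ≃ G.In d,
    if G.IsInputIso e d β ∧ inp β y = inp (Equiv.refl _) y then 1 else 0, fun d => ?_, ?_,
    fun d hd => Finset.sum_eq_zero fun β _ => if_neg fun h => hd ⟨β, h.1, h.2.symm⟩,
    fun ψ x η hη hx h d => ?_⟩
  · simpa only [mul_one] using sum_le d zero_le_one _ fun β => by split_ifs <;> simp
  · refine le_trans ?_ (Finset.single_le_sum (fun β _ => ?_) (Finset.mem_univ (Equiv.refl _)))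
    · rw [if_pos ⟨Network.IsInputIso.refl G e, rfl⟩]
    · split_ifs <;> simp
  · rw [kap_eq, Finset.sum_mul, ← Finset.sum_sub_distrib]
    refine sum_le d hη _ fun β => ?_
    by_cases h1 : G.IsInputIso e d β
    · by_cases h2 : inp β y = inp (Equiv.refl _) y
      · have h3 : inp β x = inp (Equiv.refl _) x := Prod.ext (hx _ _ (congrArg Prod.fst h2))
          (funext fun i => hx _ _ (congrFun (congrArg Prod.snd h2) i))
        simpa [h1, h2, h3] using hη
      · simpa [h1, h2] using h d β h2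
    · simpa [h1] using hη

/-- The admissible field generated by `ψ` and `v`. -/
noncomputable def fld (hP : ∀ c d, G.nodeType c d → P c = P d) (e : C) :
    (V × (G.In e → V) → ℝ) →ₗ[ℝ] P e →ₗ[ℝ] (State P → State P) :=
  LinearMap.mk₂ ℝ (fun ψ v x d => ⟨kap ψ x d • (v : V), by
      by_cases h : G.nodeType e d
      · exact (P d).smul_mem _ (hP e d h ▸ v.2)
      · rw [kap_eq, Finset.sum_eq_zero fun β _ => if_neg fun hβ => h hβ.1, zero_smul]
        exact (P d).zero_mem⟩)
    (fun φ ψ v => by ext x d; simp [kap_add, add_smul])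
    (fun c ψ v => by ext x d; simp [kap_smul, mul_smul])
    (fun ψ v w => by ext x d; simp)
    (fun c ψ v => by ext x d; simp [smul_comm c])

variable (G P) in
/-- Smooth admissible, bounded and Lipschitz fields. -/
def NiceF : Submodule ℝ (State P → State P) where
  carrier := {p | G.SmoothAdmissible P p ∧
    ∃ K : ℝ, ∀ x y, ‖p x‖ ≤ K ∧ ‖p x - p y‖ ≤ K * ‖x - y‖}
  zero_mem' := ⟨.zero, 0, fun x y => by simp⟩
  add_mem' := by
    rintro p q ⟨h1, K, h2⟩ ⟨h3, L, h4⟩
    refine ⟨by simpa [Pi.add_def] using h1.add_smul h3 1, K + L, fun x y => ⟨(norm_add_le _ _).trans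
      (add_le_add (h2 x x).1 (h4 x x).1), ?_⟩⟩
    rw [Pi.add_apply, Pi.add_apply, add_sub_add_comm, add_mul]
    exact (norm_add_le _ _).trans (add_le_add (h2 x y).2 (h4 x y).2)
  smul_mem' := by
    rintro c p ⟨h1, K, h2⟩
    refine ⟨by simpa [Pi.smul_def] using Network.SmoothAdmissible.zero.add_smul h1 c, ‖c‖ * K,
      fun x y => ?_⟩
    rw [Pi.smul_apply, Pi.smul_apply, ← smul_sub, norm_smul, norm_smul, mul_assoc]
    exact ⟨mul_le_mul_of_nonneg_left (h2 x x).1 (norm_nonneg c),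
      mul_le_mul_of_nonneg_left (h2 x y).2 (norm_nonneg c)⟩

theorem fld_nice (hP : ∀ c d, G.nodeType c d → P c = P d) (e : C)
    {ψ : V × (G.In e → V) → ℝ} (hψ : ψ ∈ Nice _) (v : P e) : fld hP e ψ v ∈ NiceF G P := by
  classical
  obtain ⟨h1, K, h2⟩ := hψ
  have hK : 0 ≤ K := (abs_nonneg _).trans (h2 0 0).1
  have hp : ∀ x d, (fld hP e ψ v x d : V) = kap ψ x d • (v : V) := fun x d => rfl
  refine ⟨⟨fun d w => sy ψ d w • (v : V), fun d => ?_, fun x d => rfl, fun d c γ hγ u w => ?_⟩,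
    nb G e * K * ‖(v : V)‖, fun x y => ⟨?_, ?_⟩⟩
  · refine ContDiff.smul (ContDiff.sum fun β _ => ?_) contDiff_const
    split_ifs
    · exact h1.comp (contDiff_fst.prodMk (contDiff_pi.mpr fun i =>
        (contDiff_apply ℝ V (β i)).comp contDiff_snd))
    · exact contDiff_const
  · change sy ψ c (u, w) • (v : V) = sy ψ d (u, fun i => w (γ i)) • (v : V)
    congr 1
    refine (Fintype.sum_equiv ((Equiv.refl (G.In e)).equivCongr γ) _ _ fun β => ?_).symm
    have hβ : (Equiv.refl (G.In e)).equivCongr γ β = β.trans γ := rfl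
    rw [hβ]
    by_cases h : G.IsInputIso e d β
    · rw [if_pos h, if_pos (h.trans hγ)]
      rfl
    · rw [if_neg h, if_neg]
      intro h'
      apply h
      have h2 := h'.trans hγ.symm
      rwa [Equiv.trans_assoc, Equiv.self_trans_symm, Equiv.trans_refl] at h2
  · refine (pi_norm_le_iff_of_nonneg (by positivity)).mpr fun d => ?_
    change ‖(fld hP e ψ v x d : V)‖ ≤ _
    rw [hp, norm_smul, kap_eq]
    refine mul_le_mul_of_nonneg_right (sum_le d hK _ fun β => ?_) (norm_nonneg _)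
    split_ifs
    · exact (h2 _ 0).1
    · simpa using hK
  · refine (pi_norm_le_iff_of_nonneg (by positivity)).mpr fun d => ?_
    change ‖(fld hP e ψ v x d : V) - fld hP e ψ v y d‖ ≤ _
    rw [hp, hp, ← sub_smul, norm_smul, kap_eq, kap_eq, ← Finset.sum_sub_distrib, mul_right_comm,
      mul_assoc (nb G e : ℝ)]
    refine mul_le_mul_of_nonneg_right (sum_le d (by positivity) _ fun β => ?_) (norm_nonneg _)
    split_ifs
    · refine (h2 _ _).2.trans (mul_le_mul_of_nonneg_left ?_ hK)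
      simpa only [dist_eq_norm] using dist_inp_le β x y
    · simp only [sub_self, abs_zero]; positivity

variable [FiniteDimensional ℝ V]

variable (G) in
/-- The properties of the probe family `Φ`. -/
structure Probe {m : ℕ} (Φ : (Fin m → ℝ) →ₗ[ℝ] (State P → State P)) (L : ℝ) : Prop where
  nn : 0 ≤ L
  adm : ∀ a, G.Admissible P (Φ a)
  bd : ∀ a x, ‖Φ a x‖ ≤ L * ‖a‖
  lip : ∀ a x y, ‖Φ a x - Φ a y‖ ≤ L * ‖a‖ * ‖x - y‖
  rich : ∀ (e : C) (y : State P) (w : V × (G.In e → V)), ∃ θ ∈ Nice _, ∃ ρ ∈ Nice _,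
    θ (inp (Equiv.refl _) y) = 0 ∧ (w ≠ 0 → fderiv ℝ θ (inp (Equiv.refl _) y) w = 1) ∧
    ρ (inp (Equiv.refl _) y) = 1 ∧
    (∀ d (β : G.In e ≃ G.In d), inp β y ≠ inp (Equiv.refl _) y → ρ (inp β y) = 0) ∧
    ∀ j ≤ finrank ℝ (State P), ∃ T : P e →ₗ[ℝ] (Fin m → ℝ), ∀ v x d,
      (Φ (T v) x d : V) = kap (θ ^ j * ρ ^ (finrank ℝ (State P) + 1)) x d • (v : V)

theorem exists_probe (hP : ∀ c d, G.nodeType c d → P c = P d) :
    ∃ (m : ℕ) (q : Fin m → State P → State P) (L : ℝ), (∀ i, q i ∈ NiceF G P) ∧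
      Probe G (Fintype.linearCombination ℝ q) L := by
  classical
  let N := finrank ℝ (State P)
  let M : Submodule ℝ (State P → State P) :=
    ⨆ e, Submodule.map₂ (fld hP e) (Alg _ ^ (N + nb G e * (N + 1))) ⊤
  have hM : M ≤ NiceF G P := iSup_le fun e =>
    Submodule.map₂_le.2 fun ψ hψ v _ => fld_nice hP e (pow_le _ _ hψ) v
  have : Module.Finite ℝ M := Module.Finite.iff_fg.2 (Submodule.fg_iSup _ fun e =>
    ((alg_fg _).pow _).map₂ _ Module.Finite.fg_top)
  let b := finBasis ℝ M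
  have hq : ∀ i, (b i : State P → State P) ∈ NiceF G P := fun i => hM (b i).2
  choose K hK using fun i => (hq i).2
  have hK0 : ∀ i, 0 ≤ K i := fun i => (norm_nonneg _).trans (hK i 0 0).1
  have hΦ : ∀ a x, Fintype.linearCombination ℝ (fun i => (b i : State P → State P)) a x =
      ∑ i, a i • (b i : State P → State P) x := fun a x => by
    simp [Fintype.linearCombination_apply]
  refine ⟨_, fun i => b i, ∑ i, K i, hq, Finset.sum_nonneg fun i _ => hK0 i, fun a => ?_,
    fun a x => ?_, fun a x y => ?_, fun e y w => ?_⟩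
  · rw [Fintype.linearCombination_apply]
    exact ((NiceF G P).sum_mem fun i _ => (NiceF G P).smul_mem _ (hq i)).1.admissible
  · rw [hΦ, Finset.sum_mul]
    refine norm_sum_le_of_le _ fun i _ => ?_
    rw [norm_smul, mul_comm]
    exact mul_le_mul (hK i x x).1 (norm_le_pi_norm a i) (norm_nonneg _) (hK0 i)
  · rw [hΦ, hΦ, ← Finset.sum_sub_distrib, Finset.sum_mul, Finset.sum_mul]
    refine norm_sum_le_of_le _ fun i _ => ?_
    rw [← smul_sub, norm_smul, mul_comm (K i), mul_assoc]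
    exact mul_le_mul (norm_le_pi_norm a i) (hK i x y).2 (norm_nonneg _) (norm_nonneg _)
  · obtain ⟨θ, h1, h2, h3⟩ := exists_mov (inp (Equiv.refl (G.In e)) y) w
    obtain ⟨ρ, h4, h5, h6⟩ := exists_rho (fun β : (d : C) × (G.In e ≃ G.In d) => inp β.2 y)
      (inp (Equiv.refl (G.In e)) y)
    refine ⟨θ, alg_le _ h1, ρ, pow_le _ _ h4, h2, h3, h5, fun d β => h6 ⟨d, β⟩, fun j hj => ?_⟩
    have hm : ∀ v, fld hP e (θ ^ j * ρ ^ (N + 1)) v ∈ M := fun v =>
      Submodule.mem_iSup_of_mem e (Submodule.apply_mem_map₂ _ (probe_mem h1 h4 hj) trivial)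
    refine ⟨b.equivFun.toLinearMap.comp ((fld hP e _).codRestrict M hm), fun v x d => ?_⟩
    have := congrArg Subtype.val (b.sum_equivFun ⟨_, hm v⟩)
    rw [Submodule.coe_sum] at this
    rw [Fintype.linearCombination_apply]
    exact congrArg (fun p : State P → State P => (p x d : V)) this

end Pool.Agent.Lib.MP_e1010f_gen
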