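import Pool.Agent.Lib.MP_e1010f_gen.GA
import Pool.Agent.Lib.MP_e1010f_gen.GC

/-! Unbalanced steady pairs occur for a null set of parameters only. -/

set_option autoImplicit false

open Filter Topology Set Module MeasureTheory
open scoped ContDiff

namespace Pool.Agent.Lib.MP_e1010f_gen

open Pool.Agent.Lib.MP_e1010f_an

variable {C A : Type} [Fintype C] [Fintype A] [DecidableEq C] {G : Network C A}
  {V : Type} [NormedAddCommGroup V] [NormedSpace ℝ V] [FiniteDimensional ℝ V]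
  {P : C → Submodule ℝ V} {m : ℕ} {Φ : (Fin m → ℝ) →ₗ[ℝ] (State P → State P)} {L : ℝ}
  {f : State P → State P}

omit [FiniteDimensional ℝ V] in
theorem loc_lip (hΦ : Probe G Φ L) (hf : LocallyLipschitz f) (y : State P) (a₀ : Fin m → ℝ) :
    ∃ K : ℝ, 0 ≤ K ∧ ∃ δ > 0, ∀ x x' a a' b, ‖x - y‖ ≤ δ → ‖x' - y‖ ≤ δ → ‖a' - a₀‖ ≤ δ →
      ‖f x + Φ a x - (f x' + Φ a' x') - Φ b x‖ ≤ K * (‖x - x'‖ + ‖a - a' - b‖) := by
  obtain ⟨K, U, hU, hK⟩ := hf y
  obtain ⟨δ, h0, hδ⟩ := Metric.nhds_basis_closedBall.mem_iff.1 hU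
  have hL := hΦ.nn
  refine ⟨K + L * (‖a₀‖ + δ) + L, by positivity, δ, h0, fun x x' a a' b hx hx' ha => ?_⟩
  have h1 := hK.norm_sub_le (hδ (mem_closedBall_iff_norm.2 hx)) (hδ (mem_closedBall_iff_norm.2 hx'))
  have h2 := (hΦ.lip a' x x').trans (mul_le_mul_of_nonneg_right (mul_le_mul_of_nonneg_left
    ((norm_le_norm_add_norm_sub' a' a₀).trans (add_le_add le_rfl ha)) hL) (norm_nonneg _))
  have h3 := hΦ.bd (a - a' - b) x
  rw [show f x + Φ a x - (f x' + Φ a' x') - Φ b x =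
    f x - f x' + (Φ a' x - Φ a' x') + Φ (a - a' - b) x by simp only [map_sub, Pi.sub_apply]; abel]
  refine norm_add₃_le.trans ?_
  have h4 : 0 ≤ (K + L * (‖a₀‖ + δ)) * ‖a - a' - b‖ := by positivity
  have h5 : 0 ≤ L * ‖x - x'‖ := by positivity
  linarith

variable (P) in
/-- States vanishing outside `S` and synchronous along `r`. -/
def pd (S : Set C) (r : C → C → Prop) : Submodule ℝ (State P) where
  carrier := {y | (∀ c ∉ S, y c = 0) ∧ ∀ c d, r c d → (y c : V) = y d}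
  zero_mem' := ⟨fun _ _ => rfl, fun _ _ _ => rfl⟩
  add_mem' := fun hx hy => ⟨fun c hc => by simp [hx.1 c hc, hy.1 c hc],
    fun c d h => by simp [hx.2 c d h, hy.2 c d h]⟩
  smul_mem' := fun _ _ hx => ⟨fun c hc => by simp [hx.1 c hc], fun c d h => by simp [hx.2 c d h]⟩

theorem steady (hΦ : Probe G Φ L) (hf : LocallyLipschitz f) (hP0 : ∀ c, P c ≠ ⊥) (S R : Set C)
    (r : C → C → Prop) (c₀ d₀ : C) (hS : ∀ c ∈ S, ∃ d ∈ R, r c d) (hc : c₀ ∈ R) (hd : d₀ ∈ R)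
    (hne : c₀ ≠ d₀) (hr : r c₀ d₀) : ∀ᵐ a, ∀ y : pd P S r,
      ¬ ((∀ c ∈ R, (f y + Φ a y) c = 0) ∧ ∀ c ∈ R, ∀ d ∈ R, Match G y.1 c d → c = d) := by
  classical
  have := Fintype.ofFinite R
  refine null_graph (Z := (c : R) → P c) ?_ _ fun y₀ a₀ h₀ => ?_
  · let res : pd P S r →ₗ[ℝ] ((c : R) → P c) :=
      LinearMap.pi fun c => (LinearMap.proj c.1).comp (pd P S r).subtype
    have h1 : Function.Injective res := LinearMap.ker_eq_bot.1 <| LinearMap.ker_eq_bot'.2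
      fun y hy => Subtype.ext <| funext fun c => by
        by_cases h : c ∈ S
        · obtain ⟨d, h2, h3⟩ := hS c h
          exact Subtype.ext ((y.2.2 c d h3).trans (congrArg Subtype.val (congrFun hy ⟨d, h2⟩)))
        · exact y.2.1 c h
    rw [← LinearMap.finrank_range_of_inj h1]
    refine Submodule.finrank_lt fun h => ?_
    obtain ⟨v, hv, hv0⟩ := Submodule.exists_mem_ne_zero_of_ne_bot (hP0 c₀)
    obtain ⟨y, hy⟩ := LinearMap.range_eq_top.1 h (Pi.single ⟨c₀, hc⟩ ⟨v, hv⟩)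
    have h2 := congrArg Subtype.val (congrFun hy ⟨c₀, hc⟩)
    have h3 := congrArg Subtype.val (congrFun hy ⟨d₀, hd⟩)
    rw [Pi.single_eq_same] at h2
    rw [Pi.single_eq_of_ne fun h => hne (congrArg Subtype.val h).symm] at h3
    exact hv0 (h2.symm.trans ((y.2.2 _ _ hr).trans h3))
  choose θ _ ρ _ _ _ h5 h6 h7 using fun c : R => hΦ.rich c y₀ 0
  choose T hT using fun c => h7 c 0 (Nat.zero_le _)
  choose k _ k2 k3 k4 using fun c : R => kap_split (G := G) c y₀.1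
  have hk : ∀ (c : R) d, kap (θ c ^ 0 * ρ c ^ (finrank ℝ (State P) + 1)) y₀.1 d = k c d :=
    fun c d => by
      have := k4 c (θ c ^ 0 * ρ c ^ (finrank ℝ (State P) + 1)) y₀ 0 le_rfl (fun _ _ h => h)
        (fun d β h => by simp [h6 c d β h]) d
      simpa [h5 c, sub_eq_zero] using this
  let T' : ((c : R) → P c) →ₗ[ℝ] (Fin m → ℝ) := ∑ c, (T c).comp (LinearMap.proj c)
  have hT' : ∀ α (d : R), ‖α d‖ ≤ ‖(Φ (T' α) y₀ d : V)‖ := fun α d => by
    have : (Φ (T' α) y₀ d : V) = k d d • (α d : V) := by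
      simp only [T', LinearMap.sum_apply, map_sum, Finset.sum_apply, Submodule.coe_sum,
        LinearMap.comp_apply, LinearMap.proj_apply, hT, hk]
      refine Finset.sum_eq_single d (fun c _ hc => ?_) (by simp)
      rw [k3 c d fun h => hc (Subtype.ext (h₀.2 c c.2 d d.2 h)), zero_smul]
    rw [this, norm_smul, Real.norm_of_nonneg (by linarith [k2 d])]
    exact le_mul_of_one_le_left (norm_nonneg _) (k2 d)
  obtain ⟨B, hB0, hB⟩ : ∃ B, 0 < B ∧ ∀ α, ‖T' α‖ ≤ B * ‖α‖ := T'.toContinuousLinearMap.bound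
  obtain ⟨K, hK0, δ, hδ, hK⟩ := loc_lip hΦ hf y₀ a₀
  have hL := hΦ.nn
  refine ⟨T', 2 * K, _, Metric.closedBall_mem_nhds _ (lt_min hδ (show 0 < 1 / (2 * (L * B + 1)) by
    positivity)), fun b hb b' hb' h h' α => ?_⟩
  rw [mem_closedBall_iff_norm, Prod.norm_def, max_le_iff, le_min_iff, le_min_iff] at hb hb'
  have h1 := hK b.1 b'.1 b.2 b'.2 (T' α) hb.1.1 hb'.1.1 hb'.2.1
  have h2 : ‖Φ (T' α) b.1 - Φ (T' α) y₀‖ ≤ ‖α‖ / 2 := by
    refine (hΦ.lip _ _ _).trans ((mul_le_mul (mul_le_mul_of_nonneg_left (hB α) hL) hb.1.2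
      (norm_nonneg _) (by positivity)).trans ?_)
    rw [mul_one_div, div_le_div_iff₀ (by positivity) two_pos]
    nlinarith [norm_nonneg α]
  have h3 : ‖α‖ ≤ K * (‖b.1 - b'.1‖ + ‖b.2 - b'.2 - T' α‖) + ‖α‖ / 2 := by
    refine (pi_norm_le_iff_of_nonneg (by positivity)).2 fun d => (hT' α d).trans ?_
    have h4 := (norm_coe_le _ d.1).trans h1
    have h5 := (norm_coe_le _ d.1).trans h2
    rw [Pi.sub_apply, Pi.sub_apply, h.1 d d.2, h'.1 d d.2, sub_self, zero_sub, Submodule.coe_neg,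
      norm_neg] at h4
    rw [Pi.sub_apply, Submodule.coe_sub] at h5
    exact (norm_le_norm_add_norm_sub _ _).trans (add_le_add h4 h5)
  linarith

end Pool.Agent.Lib.MP_e1010f_gen
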