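import Pool.Agent.Lib.MP_e1010f_gen.GD

/-! A constraint on a node with moving input occurs for a null set of parameters only. -/

set_option autoImplicit false

open Filter Topology Set Module MeasureTheory
open scoped ContDiff

namespace Pool.Agent.Lib.MP_e1010f_gen

open Pool.Agent.Lib.MP_e1010f_an

variable {C A : Type} [Fintype C] {V : Type} [NormedAddCommGroup V] [NormedSpace ℝ V]
  {P : C → Submodule ℝ V}

theorem est {g g' F : State P} {κ k : C → ℝ} {v : V} {ψ H K η : ℝ} {e : C} {M : C → Prop}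
    {Λ : State P →L[ℝ] V} (hv : ‖v‖ = 1) (hF : ∀ d, (F d : V) = κ d • v) (hη : 0 ≤ K * η)
    (h1 : ∀ d, |κ d - k d * ψ| ≤ K * η) (h2 : ∀ d, |k d| ≤ K) (h3 : 1 ≤ k e)
    (h4 : ∀ d, ¬ M d → k d = 0) (h5 : (g e : V) = Λ g) (h6 : (g' e : V) = Λ g')
    (h7 : ∀ z η, 0 ≤ η → (∀ d, ¬ M d → ‖(z d : V)‖ ≤ η) → ‖Λ z‖ ≤ η) (h8 : ‖g - g' - F‖ ≤ H) :
    |ψ| ≤ 2 * H + 2 * (K * η) ∧ ‖g - g'‖ ≤ H + K * (2 * H + 2 * (K * η)) + K * η := by
  have hn : ∀ d, ‖(F d : V)‖ = |κ d| := fun d => by rw [hF, norm_smul, hv, mul_one]; rfl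
  have a1 : ‖Λ F‖ ≤ K * η := h7 F _ hη fun d hd => by simpa [hn, h4 d hd] using h1 d
  have a2 : ‖Λ (g - g' - F)‖ ≤ H :=
    (h7 _ _ (norm_nonneg _) fun d _ => norm_coe_le _ d).trans h8
  have a3 := (norm_coe_le _ e).trans h8
  have a4 : |κ e| ≤ 2 * H + K * η := by
    rw [← hn, show (F e : V) = Λ (g - g' - F) - (g - g' - F) e + Λ F by
      simp only [map_sub, Pi.sub_apply, Submodule.coe_sub, h5, h6]; abel]
    exact (norm_add_le _ _).trans (add_le_add ((norm_sub_le _ _).trans (by linarith)) a1)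
  have a5 : |ψ| ≤ 2 * H + 2 * (K * η) := by
    have := abs_sub_abs_le_abs_sub (k e * ψ) (κ e)
    rw [abs_sub_comm, abs_mul, abs_of_nonneg (by linarith)] at this
    nlinarith [h1 e, abs_nonneg ψ]
  have hK : 0 ≤ K := (abs_nonneg _).trans (h2 e)
  have a6 : ‖F‖ ≤ K * (2 * H + 2 * (K * η)) + K * η := by
    refine (pi_norm_le_iff_of_nonneg (add_nonneg (mul_nonneg hK ((abs_nonneg _).trans a5))
      hη)).2 fun d => (hn d).trans_le ?_
    have := abs_sub_abs_le_abs_sub (κ d) (k d * ψ)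
    rw [abs_mul] at this
    linarith [h1 d, mul_le_mul (h2 d) a5 (abs_nonneg _) hK]
  exact ⟨a5, by linarith [norm_le_norm_sub_add (g - g') F]⟩

theorem arith {z w s K k c₀ c₁ φ ρ u : ℝ} {N : ℕ} (z0 : 0 ≤ z) (w0 : 0 ≤ w) (s0 : 0 ≤ s)
    (hK0 : 0 ≤ K) (k0 : 0 ≤ k) (hc0 : 0 ≤ c₀) (hc₁ : c₁ = 2 * K + 2 * (k * c₀)) (h9 : 1 / 2 ≤ ρ)
    (E1 : |φ * ρ ^ N| ≤ 2 * (K * (z + w)) + 2 * (k * (c₀ * s)))
    (E2 : u ≤ K * (z + w) + k * (2 * (K * (z + w)) + 2 * (k * (c₀ * s))) + k * (c₀ * s)) :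
    u ≤ (1 + (K + k * c₁ + k * c₀ + 2 ^ N * c₁)) * (z + (w + s)) ∧
      |φ| ≤ (1 + (K + k * c₁ + k * c₀ + 2 ^ N * c₁)) * (z + (w + s)) := by
  have hc1 : 0 ≤ c₁ := by rw [hc₁]; positivity
  have p0 : (0 : ℝ) < 2 ^ N := by positivity
  have q1 : K * (z + w) ≤ K * (z + (w + s)) := by gcongr; linarith
  have q2 : k * (c₀ * s) ≤ k * c₀ * (z + (w + s)) := by
    rw [mul_assoc]; gcongr; linarith
  have q3 : 2 * (K * (z + w)) + 2 * (k * (c₀ * s)) ≤ c₁ * (z + (w + s)) := by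
    rw [hc₁]; linarith
  have q4 := mul_le_mul_of_nonneg_left q3 k0
  have q0 : 0 ≤ z + (w + s) := by positivity
  have q5 : |φ| ≤ 2 ^ N * (c₁ * (z + (w + s))) := by
    refine le_trans ?_ (mul_le_mul_of_nonneg_left (E1.trans q3) p0.le)
    rw [abs_mul, abs_pow, mul_left_comm, ← mul_pow]
    exact le_mul_of_one_le_right (abs_nonneg _) (one_le_pow₀ (by linarith [le_abs_self ρ]))
  have q6 := mul_nonneg hK0 q0
  have q7 := mul_nonneg (mul_nonneg k0 hc0) q0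
  have q8 := mul_nonneg (mul_nonneg k0 hc1) q0
  have q9 := mul_nonneg (mul_nonneg p0.le hc1) q0
  constructor <;> linarith

variable [Fintype A] [DecidableEq C] {G : Network C A} [FiniteDimensional ℝ V] {m : ℕ}
  {Φ : (Fin m → ℝ) →ₗ[ℝ] (State P → State P)} {L : ℝ} {f : State P → State P}

theorem moving (hΦ : Probe G Φ L) (hf : LocallyLipschitz f) (hP0 : ∀ c, P c ≠ ⊥) (e : C)
    (Λ : State P →L[ℝ] V) (r : C → C → Prop) (n : ℕ) : ∀ᵐ a, ∀ y : State P,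
      ¬ (inp (Equiv.refl (G.In e)) (f y + Φ a y) ≠ 0 ∧
        (∀ z η, 0 ≤ η → (∀ d, ¬ Match G y e d → ‖(z d : V)‖ ≤ η) → ‖Λ z‖ ≤ η) ∧
        ∃ x : ℝ → State P, x 0 = y ∧ ∀ t ∈ Icc (0 : ℝ) (1 / (n + 1)),
          HasDerivAt x (f (x t) + Φ a (x t)) t ∧ ‖x t - y‖ ≤ n * t ∧
          (∀ c d, (x t c : V) = x t d ↔ r c d) ∧
          ((f (x t) + Φ a (x t)) e : V) = Λ (f (x t) + Φ a (x t))) := by
  set N := finrank ℝ (State P) with hN
  refine null_graph (Z := Fin (N + 1) → ℝ) (by simp [hN]) _ fun y₀ a₀ h₀ => ?_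
  obtain ⟨hw, hΛ, x₀, rfl, hx₀⟩ := h₀
  have hn : (0 : ℝ) < n + 1 := by positivity
  have hr := (hx₀ 0 ⟨le_rfl, by positivity⟩).2.2.1
  set y₀ := x₀ 0
  obtain ⟨θ, ⟨θs, Bθ, hθ⟩, ρ, ⟨ρs, Bρ, hρ⟩, h1, h2, h3, h4, h5⟩ :=
    hΦ.rich e y₀ (inp (Equiv.refl _) (f y₀ + Φ a₀ y₀))
  choose T hT using fun j : Fin (N + 1) => h5 j (Nat.lt_succ_iff.1 j.2)
  have := Submodule.nontrivial_iff_ne_bot.2 (hP0 e)
  obtain ⟨v, hv⟩ := exists_norm_eq (P e) zero_le_one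
  obtain ⟨k, k1, k2, k3, k4⟩ := kap_split (G := G) e y₀
  obtain ⟨K, hK0, δ, hδ, hK⟩ := loc_lip hΦ hf y₀ a₀
  let T' := Fintype.linearCombination ℝ fun j => T j v
  let ψ : (Fin (N + 1) → ℝ) → V × (G.In e → V) → ℝ :=
    fun α w => (∑ j, α j * θ w ^ (j : ℕ)) * ρ w ^ (N + 1)
  have hF : ∀ α x d, (Φ (T' α) x d : V) = kap (ψ α) x d • (v : V) := fun α x d => by
    let κ : (V × (G.In e → V) → ℝ) →ₗ[ℝ] ℝ :=
      ⟨⟨fun ψ => kap ψ x d, fun φ ψ => kap_add φ ψ x d⟩, fun c ψ => kap_smul c ψ x d⟩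
    have : ψ α = ∑ j, α j • (θ ^ (j : ℕ) * ρ ^ (N + 1)) := by
      funext w
      simp [ψ, Finset.sum_mul, mul_assoc]
    change _ = κ (ψ α) • _
    simp only [this, T', Fintype.linearCombination_apply, map_sum, map_smul, Finset.sum_apply,
      Pi.smul_apply, Submodule.coe_sum, Submodule.coe_smul, hT, Finset.sum_smul, smul_assoc]
    rfl
  let I : State P →L[ℝ] V × (G.In e → V) :=
    (ev P e).prod (ContinuousLinearMap.pi fun i => ev P (G.tail i.1))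
  have hI : ∀ x, I x = inp (Equiv.refl _) x := fun x => rfl
  have hc : ContinuousAt (fun b : State P × (Fin m → ℝ) => f b.1 + Φ b.2 b.1) (y₀, a₀) := by
    rw [ContinuousAt, tendsto_iff_norm_sub_tendsto_zero]
    refine squeeze_zero' (Eventually.of_forall fun _ => norm_nonneg _)
      (g := fun b => K * (‖b.1 - y₀‖ + ‖b.2 - a₀‖)) ?_ (Continuous.tendsto' (by fun_prop) _ _ (by simp))
    filter_upwards [Metric.closedBall_mem_nhds _ hδ] with b hb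
    rw [mem_closedBall_iff_norm, Prod.norm_def, max_le_iff] at hb
    simpa using hK b.1 y₀ b.2 a₀ 0 hb.1 (by simp [hδ.le]) (by simp [hδ.le])
  have hI1 : ContinuousAt (fun b : State P × (Fin m → ℝ) => I b.1) (y₀, a₀) := by fun_prop
  have e1 := (((θs.continuous_fderiv (by simp)).continuousAt.comp hI1).clm_apply
    (I.continuous.continuousAt.comp hc)).eventually_const_le (u := 1 / 2)
      ((h2 hw).ge.trans_lt' (by norm_num))
  have e2 := (θs.continuous.continuousAt.comp hI1).abs.eventually_le_const (u := 1 / 2)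
    (by simp [hI, h1])
  have e3 := (ρs.continuous.continuousAt.comp hI1).eventually_const_le (u := 1 / 2)
    (h3.ge.trans_lt' (by norm_num))
  obtain ⟨δ', hδ', he⟩ := Metric.nhds_basis_closedBall.eventually_iff.1 (e1.and (e2.and e3))
  have hBθ : 0 ≤ Bθ := (abs_nonneg _).trans (hθ 0 0).1
  have hBρ : 0 ≤ Bρ := (abs_nonneg _).trans (hρ 0 0).1
  obtain ⟨c₀, hc₀⟩ : ∃ c₀, c₀ = (∑ j : Fin (N + 1), Bθ ^ (j : ℕ)) * (Bρ * (n + 1)) ^ (N + 1) :=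
    ⟨_, rfl⟩
  have hc0 : 0 ≤ c₀ := by rw [hc₀]; positivity
  obtain ⟨c₁, hc₁⟩ : ∃ c₁, c₁ = 2 * K + 2 * (nb G e * c₀) := ⟨_, rfl⟩
  have hc1 : 0 ≤ c₁ := by rw [hc₁]; positivity
  obtain ⟨τ, ⟨K', hτ⟩, τ0, τ1⟩ := ((absorb (E := State P) N
    (c := 1 + (K + nb G e * c₁ + nb G e * c₀ + 2 ^ (N + 1) * c₁))
    (le_add_of_nonneg_right (by positivity))).and (Ioc_mem_nhdsGT
    (show 0 < min 1 (min δ δ') / (n + 1) by positivity))).exists
  rw [le_div_iff₀ hn, le_min_iff, le_min_iff] at τ1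
  have τ2 : τ ≤ τ * (n + 1) := le_mul_of_one_le_right τ0.le (by linarith [n.cast_nonneg (α := ℝ)])
  refine ⟨T', K', _, Metric.closedBall_mem_nhds _ τ0, ?_⟩
  rintro ⟨-, a⟩ hb ⟨-, a'⟩ hb' ⟨-, -, x, rfl, hx⟩ ⟨-, -, x', rfl, hx'⟩ α
  rw [mem_closedBall_iff_norm, Prod.norm_def, max_le_iff] at hb hb'
  have hsub : Icc 0 τ ⊆ Icc (0 : ℝ) (1 / (n + 1)) :=
    Icc_subset_Icc_right ((le_div_iff₀ hn).2 τ1.1)
  have hnear : ∀ (x : ℝ → State P) (t : ℝ), t ∈ Icc 0 τ → ‖x 0 - y₀‖ ≤ τ → ‖x t - x 0‖ ≤ n * t →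
      ‖x t - y₀‖ ≤ τ * (n + 1) := fun x t ht h h' => by
    have := mul_le_mul_of_nonneg_left ht.2 (n.cast_nonneg (α := ℝ))
    linarith [norm_sub_le_norm_sub_add_norm_sub (x t) (x 0) y₀]
  have he' : ∀ t ∈ Icc 0 τ, (x t, a) ∈ Metric.closedBall (y₀, a₀) δ' := fun t ht => by
    rw [mem_closedBall_iff_norm, Prod.norm_def, max_le_iff]
    exact ⟨(hnear x t ht hb.1 (hx t (hsub ht)).2.1).trans τ1.2.2, hb.2.trans (τ2.trans τ1.2.2)⟩
  refine hτ (fun t => x t - x' t) (fun t => f (x t) + Φ a (x t) - (f (x' t) + Φ a' (x' t)))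
    (fun t => θ (I (x t))) (fun t => fderiv ℝ θ (I (x t)) (I (f (x t) + Φ a (x t)))) α _
    (norm_nonneg _) (he (he' 0 ⟨le_rfl, τ0.le⟩)).2.1 fun t ht => ?_
  obtain ⟨x1, x2, x3, x4⟩ := hx t (hsub ht)
  obtain ⟨x1', x2', -, x4'⟩ := hx' t (hsub ht)
  have n1 := hnear x t ht hb.1 x2
  have hα := norm_nonneg α
  have hη : 0 ≤ c₀ * (τ ^ (N + 1) * ‖α‖) := by positivity
  have hsm : ∀ d (β : G.In e ≃ G.In d), inp β y₀ ≠ inp (Equiv.refl _) y₀ →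
      |ψ α (inp β (x t))| ≤ c₀ * (τ ^ (N + 1) * ‖α‖) := fun d β hβ => by
    have b1 : |ρ (inp β (x t))| ≤ Bρ * (n + 1) * τ := by
      have := (hρ (inp β (x t)) (inp β y₀)).2
      rw [h4 d β hβ, sub_zero, ← dist_eq_norm] at this
      refine this.trans ?_
      rw [mul_assoc, mul_comm _ τ]
      exact mul_le_mul_of_nonneg_left ((dist_inp_le _ _ _).trans
        ((dist_eq_norm _ _).trans_le n1)) hBρ
    have b2 : |∑ j, α j * θ (inp β (x t)) ^ (j : ℕ)| ≤ (∑ j : Fin (N + 1), Bθ ^ (j : ℕ)) * ‖α‖ := by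
      rw [Finset.sum_mul]
      refine (Finset.abs_sum_le_sum_abs _ _).trans (Finset.sum_le_sum fun j _ => ?_)
      rw [abs_mul, abs_pow, mul_comm]
      exact mul_le_mul (pow_le_pow_left₀ (abs_nonneg _) (hθ _ 0).1 _) (norm_le_pi_norm α j)
        (abs_nonneg _) (by positivity)
    rw [abs_mul, abs_pow]
    refine (mul_le_mul b2 (pow_le_pow_left₀ (abs_nonneg _) b1 _) (by positivity)
      (by positivity)).trans_eq ?_
    rw [hc₀, mul_pow]; ring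
  have hE := est (g := f (x t) + Φ a (x t)) (g' := f (x' t) + Φ a' (x' t)) (F := Φ (T' α) (x t))
    hv (hF α (x t)) (mul_nonneg (Nat.cast_nonneg _) hη)
    (k4 (ψ α) (x t) _ hη (fun c d h => (x3 c d).2 ((hr c d).1 h)) hsm) k1 k2 k3 x4 x4' hΛ
    (hK (x t) (x' t) a a' (T' α) (n1.trans τ1.2.1) ((hnear x' t ht hb'.1 x2').trans τ1.2.1)
      (hb'.2.trans (τ2.trans τ1.2.1)))
  refine ⟨x1.sub x1', (θs.differentiable (by simp) _).hasFDerivAt.comp_hasDerivAt t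
    (I.hasFDerivAt.comp_hasDerivAt t x1), (he (he' t ht)).1, ?_⟩
  have h9 : 1 / 2 ≤ ρ (inp (Equiv.refl _) (x t)) := (he (he' t ht)).2.2
  have := arith (norm_nonneg _) (norm_nonneg _) (by positivity) hK0 (Nat.cast_nonneg _) hc0 hc₁
    h9 hE.1 hE.2
  simpa only [hI] using this

end Pool.Agent.Lib.MP_e1010f_gen
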