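import Pool.Agent.Lib.MP_e1010f_an.Maxi
import Pool.Agent.Lib.MP_e1010f_gen.GE

/-! The generic synchrony theorem for one solution. -/

set_option autoImplicit false

open Filter Topology Set Module MeasureTheory
open scoped ContDiff

namespace Pool.Agent.Lib.MP_e1010f_gen

open Pool.Agent.Lib.MP_e1010f_an

variable {C A : Type} [Fintype C] {G : Network C A}
  {V : Type} [NormedAddCommGroup V] [NormedSpace ℝ V] {P : C → Submodule ℝ V}

theorem exists_time {g : State P → State P} (hg : Continuous g) {x : ℝ → State P} {s t : ℝ}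
    (hst : s < t) (hx : ∀ u ∈ Ioo s t, HasDerivAt x (g (x u)) u) : ∃ u ∈ Ioo s t, ∀ᶠ w in 𝓝 u,
      (∀ c d, (x w c : V) = x w d ↔ (x u c : V) = x u d) ∧
      ∀ c, (g (x w) c : V) = 0 ↔ (g (x u) c : V) = 0 := by
  let S : Set ℕ := (fun u => cnt (x u) (g (x u))) '' Ioo s t
  have hb : BddAbove S := ⟨_, by rintro _ ⟨u, -, rfl⟩; exact cnt_le _ _⟩
  obtain ⟨u, hu, h⟩ := Nat.sSup_mem ((nonempty_Ioo.2 hst).image _) hb
  have hc := (hx u hu).continuousAt
  refine ⟨u, hu, (stable hc (hg.continuousAt.tendsto.comp hc) ?_).mono fun w hw => hw.2⟩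
  filter_upwards [isOpen_Ioo.mem_nhds hu] with w hw
  exact (le_csSup hb ⟨w, hw, rfl⟩).trans_eq h.symm

omit [Fintype C] in
theorem window {E : Type} [NormedAddCommGroup E] [NormedSpace ℝ E] {x : ℝ → E} {x' : E} {u : ℝ}
    (hx : HasDerivAt x x' u) {p : ℝ → Prop} (hp : ∀ᶠ w in 𝓝 u, p w) : ∃ n : ℕ,
      ∀ t ∈ Icc (0 : ℝ) (1 / (n + 1)), p (u + t) ∧ ‖x (u + t) - x u‖ ≤ n * t := by
  obtain ⟨c, hc⟩ := hx.isBigO_sub.bound
  obtain ⟨δ, h0, hδ⟩ := Metric.nhds_basis_closedBall.eventually_iff.1 (hp.and hc)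
  obtain ⟨n, hn⟩ := exists_nat_ge (max c (1 / δ))
  refine ⟨n, fun t ht => ?_⟩
  have h1 : t ≤ δ := ht.2.trans ((one_div_le (by positivity) h0).2
    (by linarith [le_max_right c (1 / δ)]))
  have h2 := hδ (show u + t ∈ Metric.closedBall u δ by simpa [abs_of_nonneg ht.1] using h1)
  refine ⟨h2.1, h2.2.trans ?_⟩
  rw [add_sub_cancel_left, Real.norm_of_nonneg ht.1]
  exact mul_le_mul_of_nonneg_right ((le_max_left _ _).trans hn) ht.1

variable [Fintype A] [DecidableEq C] [FiniteDimensional ℝ V] {m : ℕ}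
  {Φ : (Fin m → ℝ) →ₗ[ℝ] (State P → State P)} {L : ℝ} {f : State P → State P}

theorem generic (hΦ : Probe G Φ L) (hf : LocallyLipschitz f) (hadm : G.Admissible P f)
    (hP0 : ∀ c, P c ≠ ⊥) : ∀ᵐ a, ∀ (x : ℝ → State P) (s t : ℝ), s < t →
      (∀ u ∈ Ioo s t, HasDerivAt x (f (x u) + Φ a (x u)) u) →
      G.Balanced fun c d => ∀ u ∈ Ioo s t, (x u c : V) = x u d := by
  classical
  have H1 := ae_all_iff.2 fun e => ae_all_iff.2 fun o : Option C => ae_all_iff.2 fun r =>
    ae_all_iff.2 fun n => moving hΦ hf hP0 e (o.elim 0 (ev P)) r n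
  have H2 : ∀ᵐ a, ∀ (S R : Set C) (r : C → C → Prop) (c d : C),
      (∀ c ∈ S, ∃ d ∈ R, r c d) ∧ c ∈ R ∧ d ∈ R ∧ c ≠ d ∧ r c d → ∀ y : pd P S r,
      ¬ ((∀ c ∈ R, (f y + Φ a y) c = 0) ∧ ∀ c ∈ R, ∀ d ∈ R, Match G y.1 c d → c = d) := by
    simp only [ae_all_iff, eventually_imp_distrib_left]
    exact fun S R r c d h => steady hΦ hf hP0 S R r c d h.1 h.2.1 h.2.2.1 h.2.2.2.1 h.2.2.2.2
  filter_upwards [H1, H2] with a H1 H2 x s t hst hx
  set g : State P → State P := fun z => f z + Φ a z with hg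
  have hga : G.Admissible P g := hadm.add (hΦ.adm a)
  have hgl : LocallyLipschitz g := hf.add (LipschitzWith.locallyLipschitz
    (K := ⟨L * ‖a‖, mul_nonneg hΦ.nn (norm_nonneg a)⟩) (LipschitzWith.of_dist_le_mul fun y z => by
      rw [dist_eq_norm, dist_eq_norm]; exact hΦ.lip a y z))
  obtain ⟨u, hu, hev⟩ := exists_time hgl.continuous hst hx
  have hev' := (isOpen_Ioo.eventually_mem hu).and hev
  have mv : ∀ (e : C) (o : Option C), (∀ d, o = some d → ¬ Match G (x u) e d) →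
      (∀ᶠ w in 𝓝 u, (g (x w) e : V) = o.elim 0 (ev P) (g (x w))) →
      inp (Equiv.refl (G.In e)) (g (x u)) = 0 := fun e o ho h => by
    by_contra hne
    obtain ⟨n, hn⟩ := window (hx u hu) (hev'.and h)
    refine H1 e o (fun c d => (x u c : V) = x u d) n (x u) ⟨hne, fun z η hη hz => ?_,
      fun t => x (u + t), by simp, fun t ht => ⟨(hx _ (hn t ht).1.1.1).comp_const_add u t,
        (hn t ht).2, (hn t ht).1.1.2.1, (hn t ht).1.2⟩⟩
    cases o with
    | none => simpa using hη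
    | some d => exact hz d (ho d rfl)
  have sy : ∀ c d, (x u c : V) = x u d → ∀ᶠ w in 𝓝 u, (g (x w) c : V) = g (x w) d :=
    fun c d h => hev'.eventually_nhds.mono fun w hw => deriv_unique
      (ev_deriv (hx w hw.self_of_nhds.1) c) (ev_deriv (hx w hw.self_of_nhds.1) d)
      (hw.mono fun v hv => (hv.2.1 c d).2 h)
  have key : ∀ c d, (x u c : V) = x u d → Match G (x u) c d := by
    intro c₀ d₀ h₀
    by_contra hM
    have : Nonempty C := ⟨c₀⟩
    let S : Set C := {c | (g (x u) c : V) = 0}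
    have hc : c₀ ∈ S := congrArg Prod.fst
      (mv c₀ (some d₀) (fun d hd => Option.some.inj hd ▸ hM) (sy _ _ h₀))
    have hd : d₀ ∈ S := (sy _ _ h₀).self_of_nhds.symm.trans hc
    have hup : ∀ c ∈ S, ∀ i : G.In c, G.tail i.1 ∈ S := fun c hc i => congrFun (congrArg Prod.snd
      (mv c none (fun _ h => by cases h) (hev.mono fun w hw => (hw.2 c).2 hc))) i
    let y : State P := fun c => if c ∈ S then x u c else 0
    have hy : ∀ c ∈ S, y c = x u c := fun c hc => if_pos hc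
    have hi : ∀ c, ∀ d ∈ S, ∀ β : G.In c ≃ G.In d, inp β y = inp β (x u) := fun c d hd β =>
      Prod.ext (congrArg Subtype.val (hy d hd))
        (funext fun i => congrArg Subtype.val (hy _ (hup d hd (β i))))
    obtain ⟨rep, r1, r2, r3⟩ : ∃ rep : V → C, rep (x u c₀) = c₀ ∧
        (∀ c ∈ S, rep (x u c) ∈ S) ∧ ∀ c ∈ S, (x u (rep (x u c)) : V) = x u c := by
      refine ⟨Function.update (Function.invFunOn (fun c => (x u c : V)) S) (x u c₀) c₀, by simp,
        fun c hc => ?_, fun c hc' => ?_⟩ <;> by_cases h : (x u c : V) = x u c₀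
      · simpa [h]
      · rw [Function.update_of_ne h]; exact Function.invFunOn_apply_mem hc
      · rw [h, Function.update_self]
      · rw [Function.update_of_ne h]
        exact Function.invFunOn_apply_eq (f := fun c => (x u c : V)) hc'
    let R : Set C := insert d₀ ((fun c => rep (x u c)) '' S)
    have hR : R ⊆ S := insert_subset hd (image_subset_iff.2 r2)
    have hm : ∀ c ∈ S, Match G (x u) (rep (x u c)) d₀ → False := fun c hc h => by
      rw [(r3 c hc).symm.trans (h.eq.trans h₀.symm), r1] at h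
      exact hM h
    refine H2 S R (fun c d => (y c : V) = y d) c₀ d₀ ⟨fun c hc => ⟨_, Or.inr ⟨c, hc, rfl⟩, ?_⟩,
      Or.inr ⟨c₀, hc, r1⟩, Or.inl rfl, fun h => hM (h ▸ Match.refl _ _), ?_⟩
      ⟨y, fun c hc => if_neg hc, fun _ _ h => h⟩ ⟨fun c hc => Subtype.ext ?_, ?_⟩
    · rw [hy c hc, hy _ (r2 c hc), r3 c hc]
    · rw [hy _ hc, hy _ hd, h₀]
    · exact (hga.eq (.refl G c) (hi c c (hR hc) _)).trans (hR hc)
    · intro c hc d hd ⟨β, h1, h2⟩
      have h3 : Match G (x u) c d := ⟨β, h1, by rwa [hi c c (hR hc), hi c d (hR hd)] at h2⟩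
      rcases hc with rfl | ⟨c, hc, rfl⟩ <;> rcases hd with rfl | ⟨d, hd, rfl⟩
      · rfl
      · exact (hm d hd h3.symm).elim
      · exact (hm c hc h3).elim
      · exact congrArg rep ((r3 c hc).symm.trans (h3.eq.trans (r3 d hd)))
  have inv := invariant hgl hx (pd P univ fun c d => (x u c : V) = x u d) (fun z hz =>
    ⟨fun c hc => absurd trivial hc, fun c d h => by
      obtain ⟨β, h1, h2⟩ := key c d h
      exact hga.eq h1 (Prod.ext (hz.2 _ _ h)
        (funext fun i => hz.2 _ _ (congrFun (congrArg Prod.snd h2) i)))⟩) hu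
    ⟨fun c hc => absurd trivial hc, fun _ _ h => h⟩
  intro c d h
  obtain ⟨β, h1, h2⟩ := key c d (h u hu)
  exact ⟨β, h1, fun i w hw => (inv w hw).2 _ _ (congrFun (congrArg Prod.snd h2) i)⟩

end Pool.Agent.Lib.MP_e1010f_gen
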