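import Pool.Agent.Lib.MP_e1010f_gen.GF

/-! The generic synchrony theorem for two solutions, through the doubled network. -/

set_option autoImplicit false

open Filter Topology Set Module MeasureTheory
open scoped ContDiff

namespace Pool.Agent.Lib.MP_e1010f_gen

open Pool.Agent.Lib.MP_e1010f_an

variable {C A : Type}

/-- Two disjoint copies of the network. -/
def dbl (G : Network C A) : Network (Bool × C) (Bool × A) where
  head := Prod.map id G.head
  tail := Prod.map id G.tail
  nodeType := G.nodeType.comap Prod.snd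
  arrowType := G.arrowType.comap Prod.snd
  head_type := fun a b => G.head_type a.2 b.2
  tail_type := fun a b => G.tail_type a.2 b.2

/-- Input sets of the doubled network. -/
def inEq (G : Network C A) (b : Bool) (c : C) : (dbl G).In (b, c) ≃ G.In c where
  toFun e := ⟨e.1.2, congrArg Prod.snd e.2⟩
  invFun e := ⟨(b, e.1), Prod.ext rfl e.2⟩
  left_inv e := Subtype.ext (Prod.ext (congrArg Prod.fst e.2).symm rfl)
  right_inv _ := rfl

theorem inEq_symm (G : Network C A) {b : Bool} {c : C} (e : (dbl G).In (b, c)) :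
    e.1 = (b, e.1.2) := Prod.ext (congrArg Prod.fst e.2 :) rfl

variable {G : Network C A} {V : Type} [NormedAddCommGroup V] [NormedSpace ℝ V]
  {P : C → Submodule ℝ V}

/-- One half of a state of the doubled network. -/
def half (b : Bool) (z : State fun c : Bool × C => P c.2) : State P := fun c => z (b, c)

/-- The state of the doubled network with equal halves. -/
def diag (x : State P) : State fun c : Bool × C => P c.2 := fun c => x c.2

theorem adm_half {p : State (fun c : Bool × C => P c.2) → State fun c : Bool × C => P c.2}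
    (hp : (dbl G).Admissible _ p) (z : State fun c : Bool × C => P c.2) (b : Bool) (c : C) :
    p z (b, c) = half true (p (diag (half b z))) c := by
  refine Subtype.ext (hp.eq (c := (b, c)) (d := (true, c))
    (β := (inEq G b c).trans (inEq G true c).symm)
    ⟨G.nodeType.refl c, fun e => G.arrowType.refl e.1.2⟩ (Prod.ext rfl (funext fun e => ?_)))
  change (z ((dbl G).tail e.1) : V) = _
  rw [inEq_symm G e]
  rfl

theorem adm_dbl {f : State P → State P} (hf : G.Admissible P f) :
    (dbl G).Admissible (fun c => P c.2) fun z c => f (half c.1 z) c.2 := by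
  obtain ⟨F, h1, h2⟩ := hf
  refine ⟨fun c w => F c.2 (w.1, fun e => w.2 ((inEq G c.1 c.2).symm e)), fun z c => h1 _ _,
    fun c d β hβ v z => ?_⟩
  exact h2 c.2 d.2 ((inEq G c.1 c.2).symm.trans (β.trans (inEq G d.1 d.2)))
    ⟨hβ.1, fun e => hβ.2 ((inEq G c.1 c.2).symm e)⟩ v _ |>.trans (by
      congr 2
      funext e
      exact congrArg z ((inEq G d.1 d.2).symm_apply_apply _))

variable [Fintype C] [Fintype A] [DecidableEq C]

omit [Fintype A] [DecidableEq C] in
theorem half_le (b : Bool) (z : State fun c : Bool × C => P c.2) : ‖half b z‖ ≤ ‖z‖ :=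
  (pi_norm_le_iff_of_nonneg (norm_nonneg _)).2 fun c => norm_le_pi_norm z (b, c)

theorem nice_half {p : State (fun c : Bool × C => P c.2) → State fun c : Bool × C => P c.2}
    (hp : p ∈ NiceF (dbl G) _) : G.SmoothAdmissible P (fun x => half true (p (diag x))) ∧
      ∃ M, ∀ x, ‖half true (p (diag x))‖ ≤ M ∧ ‖fderiv ℝ (fun x => half true (p (diag x))) x‖ ≤ M := by
  obtain ⟨⟨F, h0, h1, h2⟩, K, hK⟩ := hp
  have hK0 : 0 ≤ K := (norm_nonneg _).trans (hK 0 0).1
  refine ⟨⟨fun c w => F (true, c) (w.1, fun e => w.2 (inEq G true c e)), fun c => ?_,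
    fun x c => h1 _ _, fun c d β hβ v z => ?_⟩, K, fun x => ⟨(half_le _ _).trans (hK _ 0).1,
      norm_fderiv_le_of_lipschitz ℝ (C := ⟨K, hK0⟩) (LipschitzWith.of_dist_le_mul fun x y => ?_)⟩⟩
  · exact (h0 _).comp (contDiff_fst.prodMk (contDiff_pi.mpr fun i =>
      (contDiff_apply ℝ V (inEq G true c i)).comp contDiff_snd))
  · exact h2 (true, c) (true, d) ((inEq G true c).trans (β.trans (inEq G true d).symm))
      ⟨hβ.1, fun e => hβ.2 (inEq G true c e)⟩ v _
  · rw [dist_eq_norm, dist_eq_norm]
    refine (half_le true (p (diag x) - p (diag y))).trans ((hK _ _).2.trans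
      (mul_le_mul_of_nonneg_left ?_ hK0))
    exact (pi_norm_le_iff_of_nonneg (norm_nonneg _)).2 fun c => norm_le_pi_norm (x - y) c.2

variable [FiniteDimensional ℝ V]

theorem generic_two (hP : ∀ c d, G.nodeType c d → P c = P d) (hP0 : ∀ c, P c ≠ ⊥) :
    ∃ (m : ℕ) (q : Fin m → State P → State P),
      (∀ i, G.SmoothAdmissible P (q i) ∧ ∃ M, ∀ z, ‖q i z‖ ≤ M ∧ ‖fderiv ℝ (q i) z‖ ≤ M) ∧
      ∀ f : State P → State P, LocallyLipschitz f → G.Admissible P f →
        ∀ᵐ a : Fin m → ℝ, ∀ (x y : ℝ → State P) (s t : ℝ), s < t →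
          (∀ u ∈ Ioo s t, HasDerivAt x (f (x u) + ∑ i, a i • q i (x u)) u) →
          (∀ u ∈ Ioo s t, HasDerivAt y (f (y u) + ∑ i, a i • q i (y u)) u) →
          ∀ c d, (∀ u ∈ Ioo s t, (x u c : V) = y u d) →
            ∃ β : G.In c ≃ G.In d, G.IsInputIso c d β ∧
              ∀ e : G.In c, ∀ u ∈ Ioo s t, (x u (G.tail e.1) : V) = y u (G.tail (β e).1) := by
  obtain ⟨m, q, L, hq, hΦ⟩ := exists_probe (G := dbl G) (P := fun c => P c.2)
    fun c d => hP c.2 d.2
  refine ⟨m, fun i x => half true (q i (diag x)), fun i => nice_half (hq i), fun f hf hadm => ?_⟩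
  have hh : ∀ b, LipschitzWith 1 (half (P := P) b) := fun b => LipschitzWith.of_dist_le_mul
    fun x y => by
      rw [dist_eq_norm, dist_eq_norm, NNReal.coe_one, one_mul]; exact half_le b (x - y)
  let J : State P × State P → State fun c : Bool × C => P c.2 := fun x c => (cond c.1 x.1 x.2) c.2
  have hJ : LipschitzWith 1 J := LipschitzWith.of_dist_le_mul fun x y => by
    rw [NNReal.coe_one, one_mul, dist_pi_le_iff dist_nonneg]
    rintro ⟨_ | _, c⟩
    · exact (dist_le_pi_dist x.2 y.2 c).trans (le_max_right _ _)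
    · exact (dist_le_pi_dist x.1 y.1 c).trans (le_max_left _ _)
  have hl : LocallyLipschitz fun (z : State fun c : Bool × C => P c.2) (c : Bool × C) =>
      f (half c.1 z) c.2 := by
    have := hJ.locallyLipschitz.comp ((hf.comp (hh true).locallyLipschitz).prodMk
      (hf.comp (hh false).locallyLipschitz))
    refine (congrArg LocallyLipschitz (funext fun z => funext ?_)).mp this
    rintro ⟨_ | _, c⟩ <;> rfl
  filter_upwards [generic hΦ hl (adm_dbl hadm) fun c => hP0 c.2] with a ha x y s t hst hx hy c d h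
  obtain ⟨β, h1, h2⟩ := ha (fun u => J (x u, y u)) s t hst (fun u hu => hasDerivAt_pi.2 fun c => by
    have e : ∀ z, Fintype.linearCombination ℝ q a z c =
        (∑ i, a i • half true (q i (diag (half c.1 z)))) c.2 := fun z => by
      simp only [Fintype.linearCombination_apply, Finset.sum_apply, Pi.smul_apply]
      exact Finset.sum_congr rfl fun i _ => congrArg _ (adm_half (hq i).1.admissible z c.1 c.2)
    rw [Pi.add_apply, e]
    obtain ⟨_ | _, c⟩ := c
    · exact hasDerivAt_pi.1 (hy u hu) c
    · exact hasDerivAt_pi.1 (hx u hu) c) (true, c) (false, d) h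
  refine ⟨(inEq G true c).symm.trans (β.trans (inEq G false d)),
    ⟨h1.1, fun e => h1.2 ((inEq G true c).symm e)⟩, fun e u hu => ?_⟩
  have := h2 ((inEq G true c).symm e) u hu
  rwa [inEq_symm G (β _)] at this

end Pool.Agent.Lib.MP_e1010f_gen
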